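import Pool.Agent.H34.MC.Limit

/-!
Random words in the musical chairs game: the threshold ratio is at most 6.1.
-/

open Filter Topology

namespace Pool.Agent.Results.MP_da5937_co.UpperSixOne

open Pool.H34.MC

/-- The threshold `c*` is at most `6.1`, with an explicit bound for the probability. -/
theorem result : cstar ≤ 61 / 10 ∧
    ∀ n m L : ℕ, 61 * n ≤ 10 * m → 0 < m → 0 < L →
      1 - prob n m L ≤
        n * m * (1 - 1 / (m : ℝ)) ^ L + (11 * m * L) ^ n * (9999 / 10000) ^ (L - 1) :=
  ⟨cstar_le, fun n m L h1 h2 h3 => one_sub_prob_le n m L h1 h2 h3⟩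

end Pool.Agent.Results.MP_da5937_co.UpperSixOne
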